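import Pool.Agent.Helper96.GU.StF

set_option autoImplicit false

namespace Pool.Agent.Helper82.GF

open Pool.Agent.Helper96.UT hiding StTOP TopV TopE tht Bd VC EC
open Pool.Agent.Helper96.GU

variable {α : Type} {Ω : Type} [MulAction (FreeGroup α) Ω]

private theorem mem_VC (Z : Cyc α) (C : Finset Ω) (hC : ∀ u ∈ C, act u Z.s = u) {u : Ω} (hu : u ∈ C) (k : ℤ) :
    act u (pre Z.c k) ∈ VC Z C := by
  classical
  have hn : (0 : ℤ) < Z.n := by exact_mod_cast Z.pos
  obtain ⟨r, hr⟩ : ∃ r : ℕ, (r : ℤ) = k % Z.n :=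
    ⟨(k % Z.n).toNat, Int.toNat_of_nonneg (Int.emod_nonneg _ hn.ne')⟩
  have hlt : (r : ℤ) < Z.n := by rw [hr]; exact Int.emod_lt_of_pos _ hn
  have e : k = (r : ℤ) + (k / Z.n) * Z.n := by
    rw [hr, mul_comm]
    exact (Int.emod_add_mul_ediv k Z.n).symm
  rw [e, act_pre_per (hC u hu)]
  unfold VC
  rw [Finset.mem_image]
  refine ⟨(u, r), ?_, rfl⟩
  rw [Finset.mem_product]
  exact ⟨hu, Finset.mem_range.2 (by exact_mod_cast hlt)⟩

private theorem ends_EC (Z : Cyc α) (C : Finset Ω) (hC : ∀ u ∈ C, act u Z.s = u) {E : Set (Ω × α)}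
    (hE : ∀ u ∈ C, CE Z u ⊆ E) {e : Ω × α} (he : e ∈ EC Z C) :
    e.1 ∈ VC Z C ∧ act e.1 (lt (e.2, true)) ∈ VC Z C ∧ e ∈ E := by
  classical
  unfold EC at he
  rw [Finset.mem_image] at he
  obtain ⟨⟨u, i⟩, hp, rfl⟩ := he
  rw [Finset.mem_product] at hp
  have hu : u ∈ C := hp.1
  refine ⟨?_, ?_, hE u hu ⟨i, rfl⟩⟩
  · unfold ed
    split
    · exact mem_VC Z C hC hu _
    · simp only
      rw [act_pre_succ]
      exact mem_VC Z C hC hu _
  · unfold ed
    split
    · rename_i h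
      simp only at h ⊢
      have : ((Z.c i).1, true) = Z.c i := by rw [← h]
      rw [this, act_pre_succ]
      exact mem_VC Z C hC hu _
    · rename_i h
      simp only at h ⊢
      have : ((Z.c i).1, true) = bar (Z.c i) := by
        simp only [bar]
        rw [Bool.not_eq_true] at h
        rw [h]
        rfl
      rw [this, lt_bar, ← act_mul, mul_inv_cancel, act_one]
      exact mem_VC Z C hC hu _

theorem tGDF : StLA → StTOP → StNBD → StTEQ → StGDF := by
  classical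
  intro hLA hTOP hNBD hTEQ α Z η Ω _ E C v hCpx hHh hCne m hm
  obtain ⟨u₀, hu₀⟩ := hCne
  have hVne : (VC Z C).Nonempty := ⟨_, mem_VC Z C hCpx.fix hu₀ 0⟩
  have h1 := (hLA α Ω (EC Z C) (VC Z C) {u // u ∈ C} (LinearMap.pi fun u : {u // u ∈ C} => SaL u.1 Z.s) hVne
    (fun x a he => by
      have h := ends_EC Z C hCpx.fix hCpx.sub he
      exact ⟨h.1, h.2.1⟩)
    (fun φ _ hΛ => by
      have hz : ∀ u ∈ C, Sa φ u Z.s = 0 := fun u hu => congrFun hΛ ⟨u, hu⟩
      obtain ⟨f, hf⟩ := potential E φ (hHh φ hz (fun h hh => absurd hh (Set.notMem_empty h)))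
      exact ⟨f, fun x a he => hf x a (ends_EC Z C hCpx.fix hCpx.sub he).2.2⟩)).1
  rw [Fintype.card_coe] at h1
  have h2 := hTOP α Z η Ω C hCpx.fix
  have h3 : (Bd Z C η.η).card + 1 ≤ C.card := by omega
  by_contra hcon
  push Not at hcon
  have h4 : C ⊆ (Bd Z C η.η).image Prod.fst := by
    intro u hu
    by_contra hu2
    have h5 : ∀ i < Z.n, (u, i) ∉ Bd Z C η.η := by
      intro i _ h6
      exact hu2 (Finset.mem_image.2 ⟨(u, i), h6, rfl⟩)
    have htop := hNBD α Z η Ω C hCpx.fix u hu h5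
    refine hcon u hu ?_
    intro u' hu' k' he
    have hc : (Z.c k').1 = (Z.c m).1 := by
      have h6 := congrArg Prod.snd he
      rw [ed_tl, ed_tl] at h6
      exact h6
    have h7 : tht Z η.η k' ≤ tht Z η.η m := htop m u' hu' k' he
    exact hTEQ α Z η Ω u u' m k' (hCpx.fix u hu) (hCpx.fix u' hu') he (le_antisymm h7 (hm k' hc))
  have h5 := (Finset.card_le_card h4).trans Finset.card_image_le
  omega

end Pool.Agent.Helper82.GF
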