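import Pool.Agent.Helper96.GU.StF

set_option autoImplicit false

namespace Pool.Agent.Helper82.GF

open Pool.Agent.Helper96.UT hiding StTOP TopV TopE tht Bd VC EC
open Pool.Agent.Helper96.GU

theorem tREF : StREF := by
  classical
  intro α Z Ω _ E C hC u hu k hfr C' hC'
  set e₀ := ed (act u (pre Z.c k)) (Z.c k) with he₀
  have hfre : ∀ u' ∈ C, ∀ k' : ℤ, ed (act u' (pre Z.c k')) (Z.c k') = e₀ → (Z.n : ℤ) ∣ k' - k ∧ u' = u :=
    hfr
  have hcpx : Cpx Z (E \ {e₀}) C' := by
    refine ⟨fun u' hu' => hC.fix u' ((hC' u').1 hu').1, ?_⟩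
    rintro u' hu' e ⟨i, rfl⟩
    have h1 := (hC' u').1 hu'
    refine ⟨hC.sub u' h1.1 ⟨i, rfl⟩, ?_⟩
    intro h2
    exact h1.2 (hfre u' h1.1 i h2).2
  refine ⟨hcpx, ?_⟩
  intro v hH φ hφC _ x q hq hcl
  -- the modified cochain
  let φ₀ : Ω × α → ℚ := fun e => if e = e₀ then 0 else φ e
  let X : ℚ := Sa φ₀ u Z.s
  let r : ℚ := if (Z.c k).2 then - X else X
  let φ₁ : Ω × α → ℚ := fun e => if e = e₀ then r else φ e
  have hoff : ∀ e ∈ E \ {e₀}, φ₁ e = φ e := by
    intro e he
    have : e ≠ e₀ := he.2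
    simp [φ₁, this]
  have hn : (0 : ℤ) < Z.n := by exact_mod_cast Z.pos
  -- the value on the cell u
  have hu1 : Sa φ₁ u Z.s = 0 := by
    have hsplit : ∀ e, φ₁ e = φ₀ e + (if e = e₀ then r else 0) := by
      intro e
      by_cases h : e = e₀ <;> simp [φ₁, φ₀, h]
    have h1 : Sa φ₁ u Z.s = Sa φ₀ u Z.s + Sa (fun e => if e = e₀ then r else 0) u Z.s := by
      rw [← Sa_add]
      congr 1
      funext e
      exact hsplit e
    have h2 : Sa (fun e : Ω × α => if e = e₀ then r else 0) u Z.s = if (Z.c k).2 then r else - r := by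
      rw [← mk_seg_s, Sa_mk]
      have h3 := Sm_seg Z.c (fun e : Ω × α => if e = e₀ then r else 0) u 0 Z.n
      rw [pre_zero, act_one] at h3
      rw [h3]
      have hj0 : 0 ≤ k % Z.n := Int.emod_nonneg _ (by omega)
      have hjn : k % Z.n < Z.n := Int.emod_lt_of_pos _ hn
      obtain ⟨j, hj⟩ : ∃ j : ℕ, (j : ℤ) = k % Z.n := ⟨(k % Z.n).toNat, Int.toNat_of_nonneg hj0⟩
      have hjk : k = (j : ℤ) + (k / Z.n) * Z.n := by
        rw [hj]
        have := Int.emod_add_mul_ediv k Z.n
        linarith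
      have hfix := hC.fix u hu
      have hcj : Z.c k = Z.c (0 + j) := by
        conv_lhs => rw [hjk]
        rw [Z.per_mul, zero_add]
      have hej : ed (act u (pre Z.c (0 + j))) (Z.c (0 + j)) = e₀ := by
        rw [he₀, hcj, zero_add]
        congr 1
        conv_rhs => rw [hjk]
        rw [act_pre_per hfix]
      rw [Finset.sum_eq_single j]
      · rw [hej, hcj]
        simp
      · intro t ht htj
        have hne : ed (act u (pre Z.c (0 + t))) (Z.c (0 + t)) ≠ e₀ := by
          intro h4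
          obtain ⟨⟨w, hw⟩, -⟩ := hfre u hu _ h4
          apply htj
          have ht' : (t : ℤ) < Z.n := by exact_mod_cast Finset.mem_range.1 ht
          have h5 : (t : ℤ) = j := by
            have h6 : ((t : ℤ) - j) = Z.n * (w + k / Z.n) := by
              rw [mul_add]
              linarith
            have h7 : (Z.n : ℤ) ∣ (t : ℤ) - j := ⟨_, h6⟩
            have h8 : ((t : ℤ) - j) = 0 := by
              refine Int.eq_zero_of_abs_lt_dvd h7 ?_
              rw [abs_lt]
              constructor <;> omega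
            omega
          exact_mod_cast h5
        simp only [if_neg hne, neg_zero, ite_self]
      · intro h4
        exfalso
        apply h4
        rw [Finset.mem_range]
        have : (j : ℤ) < Z.n := by rw [hj]; exact hjn
        exact_mod_cast this
    rw [h1, h2]
    change X + (if (Z.c k).2 then r else -r) = 0
    simp only [r]
    by_cases h : (Z.c k).2 = true
    · simp [h]
    · simp [h]
  have hother : ∀ u' ∈ C, u' ≠ u → Sa φ₁ u' Z.s = Sa φ u' Z.s := by
    intro u' hu' hne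
    have h1 : InE (E \ {e₀}) u' (seg Z.c 0 Z.n) := by
      have h2 := InE_cell Z u' 0 Z.n
      rw [pre_zero, act_one] at h2
      exact InE_mono (hcpx.sub u' ((hC' u').2 ⟨hu', hne⟩)) h2
    rw [← mk_seg_s, Sa_mk, Sa_mk]
    exact Sm_congr_on hoff h1
  have hall : ∀ u' ∈ C, Sa φ₁ u' Z.s = 0 := by
    intro u' hu'
    by_cases h : u' = u
    · rw [h]; exact hu1
    · rw [hother u' hu' h]
      exact hφC u' ((hC' u').2 ⟨hu', h⟩)
  have hSS : ∀ h ∈ (∅ : Set (FreeGroup α)), Sa φ₁ v h = 0 := fun h hh => absurd hh (Set.notMem_empty h)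
  have h9 := hH φ₁ hall hSS x q (InE_mono Set.sdiff_subset hq) hcl
  rw [← Sm_congr_on hoff hq]
  exact h9

end Pool.Agent.Helper82.GF
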